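import Pool.Agent.V5helper35.AS.Stm

/-!
# Project AS, job STEP
-/

set_option autoImplicit false

namespace Pool.Agent.V5helper82.AS

open Pool.Agent.R387.TC Pool.Agent.N77.CS Pool.Agent.V5helper35.AS

theorem t_STEP : Pool.Agent.V5helper35.AS.S_STEP := by
  rintro n G G' ⟨hn, hG, H, hH, hHG⟩ hG'
  have hset : (G' : Set (MulAut (F (n + 1)))) = step (G : Set (MulAut (F n))) := Set.ext hG'
  have i0 : Fin n := ⟨0, by omega⟩
  refine ⟨by omega, ?_, H.map (inc n), ?_, ?_⟩
  · intro V _ hVi
    let W : Subgroup G' := V.subgroupOf G'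
    have hWf : W.FiniteIndex := ⟨hVi⟩
    let N : Subgroup G' := W.normalCore
    have hNW : N ≤ W := Subgroup.normalCore_le W
    have hNfi : N.FiniteIndex := inferInstance
    have hNn : N.Normal := inferInstance
    let nu' : F n × F n →* G' := (nu n).codRestrict G' (fun p => (hG' _).2
      ⟨1, G.one_mem, fun x => by rw [nu_inc, MulAut.one_apply], p.1⁻¹, p.2,
        Or.inl (by rw [nu_tt, map_inv])⟩)
    let ext' : G →* G' := ((extHom n).comp G.subtype).codRestrict G' (fun σ => (hG' _).2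
      ⟨σ.1, σ.2, fun x => extHom_inc σ.1 x, 1, 1, Or.inl (by
        rw [map_one, one_mul, mul_one]
        exact extHom_tt σ.1)⟩)
    let P := (G' ⧸ N) × (G' ⧸ N)
    let lam : F n →* P :=
      MonoidHom.prod ((QuotientGroup.mk' N).comp (nu'.comp (MonoidHom.inl _ _)))
        ((QuotientGroup.mk' N).comp (nu'.comp (MonoidHom.inr _ _)))
    have hfi : (N.comap ext').FiniteIndex := fi_comap _ _
    obtain ⟨K0, hK0c, hK0f, hK0⟩ := hG ((N.comap ext').map G.subtype)
      (Subgroup.map_subtype_le _) (by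
        rw [Subgroup.relIndex, Subgroup.subgroupOf,
          Subgroup.comap_map_eq_self_of_injective G.subtype_injective]
        exact hfi.index_ne_zero)
    have hK0n : K0.Normal := inferInstance
    let S := Equiv.Perm (P ⊕ P) × Multiplicative (ZMod 3) × (F n ⧸ K0)
    have : Finite S := inferInstance
    refine ⟨core (n + 1) S, core_char _ _, core_fin _ _, ?_⟩
    intro ψ hψG hK
    obtain ⟨σ, hσ, h1, u, v, h2⟩ := (hG' ψ).1 hψG
    have hh : ∀ (f1 : F (n + 1) →* Equiv.Perm (P ⊕ P)) (f2 : F (n + 1) →* Multiplicative (ZMod 3))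
        (f3 : F (n + 1) →* F n ⧸ K0) (x : F (n + 1)),
        f1 (ψ x * x⁻¹) = 1 ∧ f2 (ψ x * x⁻¹) = 1 ∧ f3 (ψ x * x⁻¹) = 1 := by
      intro f1 f2 f3 x
      have := mem_core.1 (hK x) (MonoidHom.prod f1 (MonoidHom.prod f2 f3))
      exact ⟨(Prod.mk_eq_one.1 this).1, Prod.mk_eq_one.1 (Prod.mk_eq_one.1 this).2⟩
    have hsig : ext' ⟨σ, hσ⟩ ∈ N := by
      have h3 : σ ∈ (N.comap ext').map G.subtype := by
        apply hK0 σ hσ
        intro x
        have := (hh 1 1 (homExt (QuotientGroup.mk' K0) 1) (inc n x)).2.2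
        rw [h1, ← map_inv, ← map_mul, homExt_inc] at this
        exact (QuotientGroup.eq_one_iff _).1 this
      obtain ⟨σ', hσ', he⟩ := h3
      have h4 : σ' = ⟨σ, hσ⟩ := Subtype.ext he
      rw [← h4]
      exact hσ'
    rcases h2 with h2 | h2
    · have h3 := (hh (swapHom lam) 1 1 (tt n)).1
      rw [h2] at h3
      obtain ⟨h4, h5⟩ := swapHom_key lam u v h3
      have h6 : nu' (u, 1) ∈ N := by
        have := (Prod.mk_eq_one.1 h4).1
        exact (QuotientGroup.eq_one_iff _).1 this
      have h7 : nu' (1, v) ∈ N := by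
        have := (Prod.mk_eq_one.1 h5).2
        exact (QuotientGroup.eq_one_iff _).1 this
      have h8 : (⟨ψ, hψG⟩ : G') = (nu' (u, 1))⁻¹ * nu' (1, v) * ext' ⟨σ, hσ⟩ := by
        rw [← map_inv, ← map_mul]
        apply Subtype.ext
        change ψ = nu n ((u, 1)⁻¹ * (1, v)) * extHom n σ
        apply mulAut_ext
        · intro x
          rw [h1, MulAut.mul_apply, extHom_inc, nu_inc]
        · rw [h2, MulAut.mul_apply, extHom_tt, nu_tt]
          simp
      have h9 : (⟨ψ, hψG⟩ : G') ∈ W := by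
        rw [h8]
        exact hNW (N.mul_mem (N.mul_mem (N.inv_mem h6) h7) hsig)
      exact h9
    · exfalso
      have h3 := (hh 1 (homExt 1 (Multiplicative.ofAdd 1)) 1 (tt n)).2.1
      rw [h2] at h3
      simp only [map_mul, map_inv, homExt_inc, homExt_tt, MonoidHom.one_apply, one_mul,
        mul_one] at h3
      revert h3
      decide
  · rw [hset]
    exact norm_step i0 hH
  · rintro _ ⟨h, hh, rfl⟩
    rw [hG']
    refine ⟨MulAut.conj h, hHG h hh, ?_, h, h⁻¹, Or.inl ?_⟩
    · intro x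
      rw [MulAut.conj_apply, MulAut.conj_apply, map_mul, map_mul, map_inv]
    · rw [MulAut.conj_apply, map_inv]

end Pool.Agent.V5helper82.AS
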